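import Mathlib

/-!
# MP_332034_al: subspace lattices over division rings embed into subspace lattices over fields

Let `D` be a division ring and `V` a left vector space over `D`. The prime field `F` of `D` is
central in `D`, so `V` is an `F`-vector space, every `D`-subspace is an `F`-subspace, and sums and
intersections do not depend on the ring of scalars. So the lattice of the `D`-subspaces of `V` is a
sublattice of the lattice of the `F`-subspaces of `V`, and every lattice that embeds into the
subspace lattice of a skew vector space embeds into the subspace lattice of a vector space over a
(prime) field.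
-/

set_option autoImplicit false
set_option linter.style.haveILetI false

universe u v w

namespace Pool.Agent.Results.MP_332034_al.PrimeFieldEmbedding

/-- Restriction of scalars from a ring `D` to a ring `F`, as a lattice homomorphism. -/
def restrict (F : Type) [Field F] (D : Type u) [DivisionRing D] [Algebra F D] (V : Type v)
    [AddCommGroup V] [Module D V] [Module F V] [IsScalarTower F D V] :
    LatticeHom (Submodule D V) (Submodule F V) where
  toFun := Submodule.restrictScalars F
  map_sup' a b := by
    ext x
    simp only [Submodule.restrictScalars_mem, Submodule.mem_sup]
  map_inf' a b := by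
    ext x
    simp only [Submodule.restrictScalars_mem, Submodule.mem_inf]

theorem restrict_injective (F : Type) [Field F] (D : Type u) [DivisionRing D] [Algebra F D]
    (V : Type v) [AddCommGroup V] [Module D V] [Module F V] [IsScalarTower F D V] :
    Function.Injective (restrict F D V) :=
  fun _ _ h => Submodule.restrictScalars_injective F D V h

theorem prime_rat : (⊥ : Subfield ℚ) = ⊤ := Subsingleton.elim _ _

theorem prime_zmod (p : ℕ) [Fact p.Prime] : (⊥ : Subfield (ZMod p)) = ⊤ := Subsingleton.elim _ _

/-- **Answer to Q1 (negated form).** Let `L` be a lattice which embeds into the lattice of all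
`D`-subspaces of a left vector space `V` over a division ring `D`. Then there are a field `F`, which
is even a prime field, and a structure of an `F`-vector space on the abelian group `V` such that `L`
embeds into the lattice of all `F`-subspaces of `V`. -/
theorem result (L : Type w) [Lattice L] (D : Type u) [DivisionRing D] (V : Type v)
    [AddCommGroup V] [Module D V] (f : LatticeHom L (Submodule D V))
    (hf : Function.Injective f) :
    ∃ (F : Type) (_ : Field F) (_ : Module F V) (g : LatticeHom L (Submodule F V)),
      (⊥ : Subfield F) = ⊤ ∧ Function.Injective g := by
  obtain ⟨p, hp⟩ := CharP.exists D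
  rcases CharP.char_is_prime_or_zero D p with hpr | rfl
  · haveI : Fact p.Prime := ⟨hpr⟩
    letI : Algebra (ZMod p) D := ZMod.algebra D p
    letI : Module (ZMod p) V := Module.compHom V (algebraMap (ZMod p) D)
    haveI : IsScalarTower (ZMod p) D V :=
      ⟨fun a d x => by
        rw [Algebra.smul_def, mul_smul]
        rfl⟩
    exact ⟨ZMod p, inferInstance, inferInstance, (restrict (ZMod p) D V).comp f, prime_zmod p,
      (restrict_injective (ZMod p) D V).comp hf⟩
  · haveI : CharZero D := CharP.charP_to_charZero D
    letI : Module ℚ V := Module.compHom V (algebraMap ℚ D)
    haveI : IsScalarTower ℚ D V :=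
      ⟨fun a d x => by
        rw [Algebra.smul_def, mul_smul]
        rfl⟩
    exact ⟨ℚ, inferInstance, inferInstance, (restrict ℚ D V).comp f, prime_rat,
      (restrict_injective ℚ D V).comp hf⟩

end Pool.Agent.Results.MP_332034_al.PrimeFieldEmbedding
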